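import Pool.Agent.W626.FR.Stms

/-!
# The law of the configuration of the subtree of a child of the root
-/

namespace Pool.Agent.W395.FR.Law

open MeasureTheory ProbabilityTheory Filter FrogGW FrogRec
open scoped ENNReal NNReal Classical Topology

/-- Pairs (highest vertex, absorbing vertex). -/
noncomputable def KF (n : ℕ) (Z : Env) : Finset (List ℕ × List ℕ) :=
  ((vert Z n).biUnion fun x => x.tails.toFinset) ×ˢ lev Z n

/-- The classes of trajectories. -/
def Cc (Z : Env) (N J : ℕ) (x : List ℕ) : Option (List ℕ × List ℕ) → Set (ℕ → ℝ)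
  | none => {u | VE Z N (x ++ [J]) u}
  | some k => {u | CE Z N (x ++ [J]) (k.1 ++ [J]) (k.2 ++ [J]) u}

/-- Rows with prescribed bits in `A`, and no visitor of the root if `x ∈ B`. -/
def RR (Z : Env) (N J : ℕ) (K : Finset (List ℕ × List ℕ)) (A : Finset Ix) (B : Finset (List ℕ))
    (x : List ℕ) : Set Rd :=
  {r | (∀ k ∈ K, (∃ l < r.1, r.2 l ∈ Cc Z N J x (some k)) ↔ (x, k) ∈ A) ∧
    (x ∈ B → ¬ ∃ l < r.1, r.2 l ∈ Cc Z N J x none)}

theorem bern_false (q : ℝ≥0) : bern q {false} = ENNReal.ofReal (Real.exp (-(q : ℝ))) := by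
  simp [bern]

theorem suff_append {a b : List ℕ} {J : ℕ} : a ++ [J] <:+ b ++ [J] ↔ a <:+ b := by
  constructor
  · rintro ⟨c, hc⟩
    refine ⟨c, ?_⟩
    rw [← List.append_assoc] at hc
    exact List.append_cancel_right hc
  · rintro ⟨c, hc⟩
    exact ⟨c, by rw [← List.append_assoc, hc]⟩

theorem cc_meas (hCm : TaskCEm) (Z : Env) (N J : ℕ) (x : List ℕ) (i) :
    MeasurableSet (Cc Z N J x i) := by
  cases i with
  | none => exact hCm.2.1 _ _ _
  | some k => exact hCm.1 _ _ _ _ _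

theorem cc_disj (hCm : TaskCEm) (Z : Env) (N J : ℕ) (x : List ℕ) (i j) (hij : i ≠ j) :
    Disjoint (Cc Z N J x i) (Cc Z N J x j) := by
  rw [Set.disjoint_left]
  intro u hi hj
  cases i with
  | none =>
    cases j with
    | none => exact hij rfl
    | some k => exact hCm.2.2.2.1 _ _ _ _ _ _ hj (by simp) hi
  | some k =>
    cases j with
    | none => exact hCm.2.2.2.1 _ _ _ _ _ _ hi (by simp) hj
    | some k' =>
      obtain ⟨h1, h2⟩ := hCm.2.2.1 _ _ _ _ _ _ _ _ hi hj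
      apply hij
      have e1 := List.append_cancel_right h1
      have e2 := List.append_cancel_right h2
      rw [Prod.ext e1 e2]

theorem cc_prob (hAlg : TaskAlg) (hCm : TaskCEm) (hCp : TaskCEp) (Z : Env) (n J : ℕ)
    (hJ : J < Z []) (x : List ℕ) (hx : x ∈ vert (sh J Z) n) (k : List ℕ × List ℕ)
    (hk : k.2 ∈ lev (sh J Z) n) :
    (Measure.infinitePi fun _ : ℕ => unif) (Cc Z (n + 1) J x (some k)) =
      (FrogRec.bet n (sh J Z) x k.1 k.2 : ℝ≥0∞) := by
  by_cases h : k.1 <:+ x ∧ k.1 <:+ k.2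
  · have h1 := hCp.1 Z (n + 1) (x ++ [J]) (k.1 ++ [J]) (k.2 ++ [J])
      (((hAlg.1 n Z J x).1).2 ⟨hJ, hx⟩) (by simp) (suff_append.2 h.1)
      (((hAlg.1 n Z J k.2).2).2 ⟨hJ, hk⟩) (suff_append.2 h.2)
    have h2 := (hAlg.2.2.1 n Z J k.1 x).2.1
    have h3 := (hAlg.2.2.1 n Z J k.1 k.2).2.2.1
    rw [h2, h3] at h1
    rw [FrogRec.bet, if_pos ⟨hx, hk, h.1, h.2⟩]
    exact h1
  · rw [FrogRec.bet, if_neg (fun h' => h ⟨h'.2.2.1, h'.2.2.2⟩)]
    have : Cc Z (n + 1) J x (some k) = ∅ := by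
      rw [Set.eq_empty_iff_forall_notMem]
      intro u hu
      obtain ⟨h1, h2⟩ := hCm.2.2.2.2 _ _ _ _ _ _ hu
      exact h ⟨suff_append.1 h1, suff_append.1 h2⟩
    rw [this]
    simp

theorem cv_prob (hAlg : TaskAlg) (hCp : TaskCEp) (Z : Env) (n J : ℕ)
    (hJ : J < Z []) (x : List ℕ) (hx : x ∈ vert (sh J Z) n) :
    (Measure.infinitePi fun _ : ℕ => unif) (Cc Z (n + 1) J x none) =
      (GG n (sh J Z) x : ℝ≥0∞) := by
  have h1 := hCp.2.2 Z (n + 1) (x ++ [J]) (((hAlg.1 n Z J x).1).2 ⟨hJ, hx⟩)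
  rw [(hAlg.2.2.1 n Z J [] x).2.2.2.1] at h1
  exact h1

/-- measurability and probability of the rows -/
theorem row (hAlg : TaskAlg) (hCm : TaskCEm) (hCp : TaskCEp) (hPoi : TaskPoi) (mu : ℝ≥0) (Z : Env)
    (n J : ℕ) (hJ : J < Z []) (K : Finset (List ℕ × List ℕ)) (hK : ∀ k ∈ K, k.2 ∈ lev (sh J Z) n)
    (A : Finset Ix) (B : Finset (List ℕ)) (x : List ℕ) :
    MeasurableSet (RR Z (n + 1) J K A B x) ∧ (x ∈ vert (sh J Z) n →
    vertexLaw mu (RR Z (n + 1) J K A B x) =
      (∏ k ∈ K, bern (mu * FrogRec.bet n (sh J Z) x k.1 k.2) {decide ((x, k) ∈ A)}) *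
        (if x ∈ B then ENNReal.ofReal (Real.exp (-((mu * GG n (sh J Z) x : ℝ≥0) : ℝ))) else 1)) := by
  set C : Option K → Set (ℕ → ℝ) := fun i => Cc Z (n + 1) J x (i.map Subtype.val) with hC
  obtain ⟨hm, hl⟩ := hPoi mu (Option K) C (fun i => cc_meas hCm _ _ _ _ _) (by
    intro i j hij
    refine cc_disj hCm _ _ _ _ _ _ ?_
    intro h
    exact hij (Option.map_injective Subtype.val_injective h))
  set s : Option K → Set Bool := fun i => match i with
    | none => if x ∈ B then {false} else Set.univ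
    | some k => {decide ((x, (k : List ℕ × List ℕ)) ∈ A)} with hs
  have hsm : MeasurableSet (Set.pi Set.univ s) := by
    refine MeasurableSet.univ_pi fun i => ?_
    exact MeasurableSet.of_discrete
  have hR : RR Z (n + 1) J K A B x =
      (fun (r : Rd) (i : Option K) => decide (∃ j < r.1, r.2 j ∈ C i)) ⁻¹' (Set.pi Set.univ s) := by
    ext r
    simp only [RR, Set.mem_ofPred_eq, Set.mem_preimage, Set.mem_univ_pi]
    constructor
    · rintro ⟨h1, h2⟩ i
      cases i with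
      | none =>
        simp only [hs]
        split_ifs with hB
        · simp only [Set.mem_singleton_iff, decide_eq_false_iff_not]
          exact h2 hB
        · trivial
      | some k =>
        simp only [hs, Set.mem_singleton_iff, decide_eq_decide]
        exact h1 k.1 k.2
    · intro h
      refine ⟨fun k hk => ?_, fun hB => ?_⟩
      · have := h (some ⟨k, hk⟩)
        simp only [hs, Set.mem_singleton_iff, decide_eq_decide] at this
        exact this
      · have := h none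
        simp only [hs, if_pos hB, Set.mem_singleton_iff, decide_eq_false_iff_not] at this
        exact this
  refine ⟨?_, fun hx => ?_⟩
  · rw [hR]; exact hm hsm
  · rw [hR, ← Measure.map_apply hm hsm, hl, Measure.pi_pi, Fintype.prod_option]
    rw [mul_comm]
    congr 1
    · rw [← Finset.prod_coe_sort K
        (fun k => bern (mu * FrogRec.bet n (sh J Z) x k.1 k.2) {decide ((x, k) ∈ A)})]
      refine Finset.prod_congr rfl fun k _ => ?_
      have h1 := cc_prob hAlg hCm hCp Z n J hJ x hx k.1 (hK k.1 k.2)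
      have h2 : ((Measure.infinitePi fun _ : ℕ => unif) (C (some k))).toNNReal =
          FrogRec.bet n (sh J Z) x k.1.1 k.1.2 := by
        change ((Measure.infinitePi fun _ : ℕ => unif) (Cc Z (n + 1) J x (some k.1))).toNNReal = _
        rw [h1]; simp
      rw [h2]
    · have h1 := cv_prob hAlg hCp Z n J hJ x hx
      have h2 : ((Measure.infinitePi fun _ : ℕ => unif) (C none)).toNNReal =
          GG n (sh J Z) x := by
        change ((Measure.infinitePi fun _ : ℕ => unif) (Cc Z (n + 1) J x none)).toNNReal = _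
        rw [h1]; simp
      rw [h2]
      simp only [hs]
      split_ifs with hB
      · exact bern_false _
      · exact measure_univ

theorem kf_lev (n : ℕ) (Z : Env) (k : List ℕ × List ℕ) (hk : k ∈ KF n Z) : k.2 ∈ lev Z n :=
  (Finset.mem_product.1 hk).2

/-- bits on the finite set `A` -/
noncomputable def EA (A : Finset Ix) : Ix → Bool := fun j => decide (j ∈ A)

/-- the indices that matter -/
noncomputable def QQ (n : ℕ) (Z : Env) : Finset Ix := vert Z n ×ˢ KF n Z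

theorem mem_QQ (n : ℕ) (Z : Env) (j : Ix) (h1 : j.1 ∈ vert Z n) (h2 : j.2.2 ∈ lev Z n)
    (h3 : j.2.1 <:+ j.1) : j ∈ QQ n Z := by
  unfold QQ KF
  rw [Finset.mem_product, Finset.mem_product, Finset.mem_biUnion]
  exact ⟨h1, ⟨j.1, h1, by simpa using h3⟩, h2⟩

/-- starting points of forbidden visitors -/
noncomputable def BA (n : ℕ) (Z : Env) (J : ℕ) (z' : List ℕ) (F : Finset (List ℕ))
    (A : Finset Ix) : Finset (List ℕ) :=
  (vert (sh J Z) n).filter fun x => Opn n (EA A) {z'} x ∧ x ++ [J] ∉ F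

/-- the set of true bits -/
noncomputable def A0 (n : ℕ) (Z : Env) (J : ℕ) (ω : Conf) : Finset Ix :=
  (QQ n (sh J Z)).filter fun j => etaJ Z (n + 1) J ω j = true

theorem eta_iff (hAlg : TaskAlg) (Z : Env) (n J : ℕ) (hJ : J < Z []) (x : List ℕ)
    (k : List ℕ × List ℕ) (hx : x ∈ vert (sh J Z) n) (hk : k ∈ KF n (sh J Z)) (ω : Conf) :
    etaJ Z (n + 1) J ω (x, k) = true ↔
      ∃ l < (ω (x ++ [J])).1, (ω (x ++ [J])).2 l ∈ Cc Z (n + 1) J x (some k) := by
  unfold etaJ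
  rw [decide_eq_true_iff]
  constructor
  · rintro ⟨l, hl, _, _, h⟩
    exact ⟨l, hl, h⟩
  · rintro ⟨l, hl, h⟩
    exact ⟨l, hl, ((hAlg.1 n Z J k.2).2).2 ⟨hJ, kf_lev _ _ _ hk⟩,
      ((hAlg.1 n Z J x).1).2 ⟨hJ, hx⟩, h⟩

theorem eta_supp (hAlg : TaskAlg) (hCm : TaskCEm) (Z : Env) (n J : ℕ) (ω : Conf) (j : Ix)
    (h : etaJ Z (n + 1) J ω j = true) : j ∈ QQ n (sh J Z) := by
  unfold etaJ at h
  rw [decide_eq_true_iff] at h
  obtain ⟨l, hl, h1, h2, h3⟩ := h
  obtain ⟨h4, h5⟩ := hCm.2.2.2.2 _ _ _ _ _ _ h3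
  exact mem_QQ _ _ _ (((hAlg.1 n Z J j.1).1).1 h2).2 (((hAlg.1 n Z J j.2.2).2).1 h1).2
    (suff_append.1 h4)

theorem eta_eq (hAlg : TaskAlg) (hCm : TaskCEm) (Z : Env) (n J : ℕ) (ω : Conf) :
    etaJ Z (n + 1) J ω = EA (A0 n Z J ω) := by
  funext j
  unfold EA A0
  rw [Bool.eq_iff_iff, decide_eq_true_iff, Finset.mem_filter]
  exact ⟨fun h => ⟨eta_supp hAlg hCm Z n J ω j h, h⟩, fun h => h.2⟩

/-- cylinders -/
def cyl (n : ℕ) (Z : Env) (J : ℕ) (z' : List ℕ) (F : Finset (List ℕ)) (A : Finset Ix) : Set Conf :=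
  {ω | ∀ x ∈ vert (sh J Z) n,
    ω (x ++ [J]) ∈ RR Z (n + 1) J (KF n (sh J Z)) A (BA n Z J z' F A) x}

theorem cyl_iff (hAlg : TaskAlg) (hCm : TaskCEm) (Z : Env) (n J : ℕ) (hJ : J < Z []) (z' : List ℕ)
    (F : Finset (List ℕ)) (A : Finset Ix) (hA : A ⊆ QQ n (sh J Z)) (ω : Conf) :
    ω ∈ cyl n Z J z' F A ↔ A0 n Z J ω = A ∧ ω ∈ NoV Z n J z' F := by
  have h1 : (∀ x ∈ vert (sh J Z) n, ∀ k ∈ KF n (sh J Z),
      ((∃ l < (ω (x ++ [J])).1, (ω (x ++ [J])).2 l ∈ Cc Z (n + 1) J x (some k)) ↔ (x, k) ∈ A)) ↔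
      A0 n Z J ω = A := by
    constructor
    · intro h
      ext j
      unfold A0
      rw [Finset.mem_filter]
      constructor
      · rintro ⟨hj, hj2⟩
        obtain ⟨hx, hk⟩ := Finset.mem_product.1 hj
        exact (h j.1 hx j.2 hk).1 ((eta_iff hAlg Z n J hJ j.1 j.2 hx hk ω).1 hj2)
      · intro hj
        have hj' := hA hj
        obtain ⟨hx, hk⟩ := Finset.mem_product.1 hj'
        exact ⟨hj', (eta_iff hAlg Z n J hJ j.1 j.2 hx hk ω).2 ((h j.1 hx j.2 hk).2 hj)⟩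
    · rintro rfl x hx k hk
      rw [← eta_iff hAlg Z n J hJ x k hx hk ω, A0, Finset.mem_filter]
      exact ⟨fun h => ⟨Finset.mem_product.2 ⟨hx, hk⟩, h⟩, fun h => h.2⟩
  have h2 : ω ∈ cyl n Z J z' F A ↔ (∀ x ∈ vert (sh J Z) n, ∀ k ∈ KF n (sh J Z),
      ((∃ l < (ω (x ++ [J])).1, (ω (x ++ [J])).2 l ∈ Cc Z (n + 1) J x (some k)) ↔ (x, k) ∈ A)) ∧
      (∀ x ∈ vert (sh J Z) n, x ∈ BA n Z J z' F A →
        ¬ ∃ l < (ω (x ++ [J])).1, (ω (x ++ [J])).2 l ∈ Cc Z (n + 1) J x none) := by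
    unfold cyl RR
    simp only [Set.mem_ofPred_eq]
    exact ⟨fun h => ⟨fun x hx => (h x hx).1, fun x hx => (h x hx).2⟩,
      fun h x hx => ⟨h.1 x hx, h.2 x hx⟩⟩
  rw [h2, h1]
  constructor
  · rintro ⟨h3, h4⟩
    refine ⟨h3, ?_⟩
    intro x hx ho hF j hj hv
    rw [eta_eq hAlg hCm, h3] at ho
    exact h4 x hx (Finset.mem_filter.2 ⟨hx, ho, hF⟩) ⟨j, hj, hv⟩
  · rintro ⟨h3, h4⟩
    refine ⟨h3, ?_⟩
    intro x hx hB ⟨l, hl, hv⟩
    obtain ⟨_, ho, hF⟩ := Finset.mem_filter.1 hB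
    rw [← h3, ← eta_eq hAlg hCm] at ho
    exact h4 x hx ho hF l hl hv

theorem nov_eq (hAlg : TaskAlg) (hCm : TaskCEm) (Z : Env) (n J : ℕ) (hJ : J < Z []) (z' : List ℕ)
    (F : Finset (List ℕ)) :
    NoV Z n J z' F = ⋃ A ∈ (QQ n (sh J Z)).powerset, cyl n Z J z' F A := by
  ext ω
  simp only [Set.mem_iUnion]
  constructor
  · intro h
    have hA : A0 n Z J ω ⊆ QQ n (sh J Z) := Finset.filter_subset _ _
    exact ⟨A0 n Z J ω, Finset.mem_powerset.2 hA, (cyl_iff hAlg hCm Z n J hJ z' F _ hA ω).2 ⟨rfl, h⟩⟩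
  · rintro ⟨A, hA, h⟩
    exact ((cyl_iff hAlg hCm Z n J hJ z' F _ (Finset.mem_powerset.1 hA) ω).1 h).2

theorem cyl_disj (hAlg : TaskAlg) (hCm : TaskCEm) (Z : Env) (n J : ℕ) (hJ : J < Z []) (z' : List ℕ)
    (F : Finset (List ℕ)) :
    (↑(QQ n (sh J Z)).powerset : Set (Finset Ix)).PairwiseDisjoint (cyl n Z J z' F) := by
  intro A hA A' hA' hne
  rw [Function.onFun, Set.disjoint_left]
  intro ω h1 h2
  apply hne
  have hA1 := Finset.mem_powerset.1 (Finset.mem_coe.1 hA)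
  have hA2 := Finset.mem_powerset.1 (Finset.mem_coe.1 hA')
  rw [← ((cyl_iff hAlg hCm Z n J hJ z' F _ hA1 ω).1 h1).1,
    ((cyl_iff hAlg hCm Z n J hJ z' F _ hA2 ω).1 h2).1]

theorem root_law (mu : ℝ≥0) (S : Set (ℕ → ℝ)) (hS : MeasurableSet S) :
    MeasurableSet {r : Rd | r.2 0 ∈ S} ∧
    vertexLaw mu {r : Rd | r.2 0 ∈ S} = (Measure.infinitePi fun _ : ℕ => unif) S := by
  have hm : MeasurableSet {w : ℕ → ℕ → ℝ | w 0 ∈ S} := (measurable_pi_apply 0) hS
  have e : {r : Rd | r.2 0 ∈ S} = Set.univ ×ˢ {w : ℕ → ℕ → ℝ | w 0 ∈ S} := by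
    ext r; simp
  refine ⟨?_, ?_⟩
  · rw [e]; exact MeasurableSet.univ.prod hm
  · rw [e, vertexLaw, Measure.prod_prod, measure_univ, one_mul]
    have h := (measurePreserving_eval_infinitePi
      (fun _ : ℕ => Measure.infinitePi fun _ : ℕ => unif) 0).measure_preimage hS.nullMeasurableSet
    exact h

/-- weight of a configuration of bits -/
noncomputable def WA (mu : ℝ≥0) (n : ℕ) (Z : Env) (A : Finset Ix) : ℝ≥0∞ :=
  ∏ j ∈ QQ n Z, bern (mu * FrogRec.bet n Z j.1 j.2.1 j.2.2) {decide (j ∈ A)}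

theorem cyl_law (hAlg : TaskAlg) (hCm : TaskCEm) (hCp : TaskCEp) (hPoi : TaskPoi) (mu : ℝ≥0)
    (Z : Env) (n J : ℕ) (hJ : J < Z []) (z' : List ℕ) (F : Finset (List ℕ)) (A : Finset Ix)
    (S : Set (ℕ → ℝ)) (hS : MeasurableSet S) :
    MeasurableSet (cyl n Z J z' F A) ∧
    FM mu ({ω | (ω []).2 0 ∈ S} ∩ cyl n Z J z' F A) =
      (Measure.infinitePi fun _ : ℕ => unif) S * (WA mu n (sh J Z) A *
        ∏ x ∈ vert (sh J Z) n, (if x ∈ BA n Z J z' F A then
          ENNReal.ofReal (Real.exp (-((mu * GG n (sh J Z) x : ℝ≥0) : ℝ))) else 1)) := by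
  set V := vert (sh J Z) n with hV
  set K := KF n (sh J Z) with hK
  have hrow := fun x => row hAlg hCm hCp hPoi mu Z n J hJ K (kf_lev n (sh J Z)) A
    (BA n Z J z' F A) x
  obtain ⟨hSm, hSl⟩ := root_law mu S hS
  set T : List ℕ → Set Rd := fun y => if y = [] then {r | r.2 0 ∈ S} else
    RR Z (n + 1) J K A (BA n Z J z' F A) y.dropLast with hT
  have hTm : ∀ y, MeasurableSet (T y) := by
    intro y
    simp only [hT]
    split_ifs
    · exact hSm
    · exact (hrow _).1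
  have hTx : ∀ x, T (x ++ [J]) = RR Z (n + 1) J K A (BA n Z J z' F A) x := by
    intro x
    simp only [hT]
    rw [if_neg (by simp), List.dropLast_concat]
  have e1 : cyl n Z J z' F A = Set.pi ↑(V.image (fun x => x ++ [J])) T := by
    ext ω
    simp only [cyl, Set.mem_ofPred_eq, Set.mem_pi, Finset.coe_image, Set.mem_image]
    constructor
    · rintro h y ⟨x, hx, rfl⟩
      rw [hTx]; exact h x hx
    · intro h x hx
      have := h (x ++ [J]) ⟨x, hx, rfl⟩
      rwa [hTx] at this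
  have e2 : {ω : Conf | (ω []).2 0 ∈ S} ∩ cyl n Z J z' F A =
      Set.pi ↑(insert [] (V.image (fun x => x ++ [J]))) T := by
    rw [e1, Finset.coe_insert, Set.insert_pi]
    have : T [] = {r | r.2 0 ∈ S} := by simp only [hT, if_true]
    rw [this]
    rfl
  refine ⟨?_, ?_⟩
  · rw [e1]
    exact MeasurableSet.pi (Finset.countable_toSet _) fun y _ => hTm y
  · rw [e2, FM, Measure.infinitePi_pi _ (fun y _ => hTm y), Finset.prod_insert (by simp)]
    have : T [] = {r | r.2 0 ∈ S} := by simp only [hT, if_true]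
    rw [this, hSl]
    congr 1
    rw [Finset.prod_image (fun x _ y _ h => List.append_cancel_right h), WA, QQ,
      Finset.prod_product, ← Finset.prod_mul_distrib]
    refine Finset.prod_congr rfl fun x hx => ?_
    rw [hTx]
    exact (hrow x).2 hx

theorem PB_int (hOpn : TaskOpn) (mu : ℝ≥0) (n : ℕ) (Z : Env) (g : (Ix → Bool) → ℝ≥0∞) :
    ∫⁻ η, g η ∂(PB mu n Z) = ∑ A ∈ (QQ n Z).powerset, WA mu n Z A * g (EA A) := by
  have hcyl : ∀ A : Finset Ix, MeasurableSet (Set.pi ↑(QQ n Z) fun j : Ix => ({decide (j ∈ A)} : Set Bool)) :=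
    fun A => MeasurableSet.pi (Finset.countable_toSet _) fun y _ => MeasurableSet.of_discrete
  have h1 : ∀ᵐ η ∂(PB mu n Z), g η = ∑ A ∈ (QQ n Z).powerset,
      (Set.pi ↑(QQ n Z) fun j : Ix => ({decide (j ∈ A)} : Set Bool)).indicator (fun _ => g (EA A)) η := by
    filter_upwards [hOpn.2.2.2.2.1 mu n Z] with η hη
    have hsupp : ∀ j, η j = true → j ∈ QQ n Z := by
      intro j hj
      have h2 := hη j.1 j.2.1 j.2.2 hj
      unfold FrogRec.bet at h2
      split_ifs at h2 with h3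
      · exact mem_QQ _ _ _ h3.1 h3.2.1 h3.2.2.1
      · exact absurd rfl h2
    set B := (QQ n Z).filter fun j => η j = true with hB
    have hηB : η = EA B := by
      funext j
      unfold EA
      rw [Bool.eq_iff_iff, decide_eq_true_iff, hB, Finset.mem_filter]
      exact ⟨fun h => ⟨hsupp j h, h⟩, fun h => h.2⟩
    rw [Finset.sum_eq_single B]
    · rw [Set.indicator_of_mem]
      · rw [← hηB]
      · intro j hj
        simp only [Set.mem_singleton_iff]
        rw [hηB]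
        unfold EA
        rfl
    · intro A hA hne
      rw [Set.indicator_of_notMem]
      intro hmem
      apply hne
      ext j
      constructor
      · intro hj
        have h3 := hmem j (Finset.mem_coe.2 (Finset.mem_powerset.1 hA hj))
        simp only [Set.mem_singleton_iff] at h3
        rw [hB, Finset.mem_filter]
        refine ⟨Finset.mem_powerset.1 hA hj, ?_⟩
        rw [h3, decide_eq_true_iff]
        exact hj
      · intro hj
        rw [hB, Finset.mem_filter] at hj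
        have h3 := hmem j (Finset.mem_coe.2 hj.1)
        simp only [Set.mem_singleton_iff] at h3
        rw [hj.2] at h3
        exact of_decide_eq_true h3.symm
    · intro h
      exact absurd (Finset.mem_powerset.2 (Finset.filter_subset _ _)) h
  rw [lintegral_congr_ae h1, lintegral_finsetSum _ (fun A _ => measurable_const.indicator (hcyl A))]
  refine Finset.sum_congr rfl fun A _ => ?_
  rw [lintegral_indicator_const (hcyl A), mul_comm, PB,
    Measure.infinitePi_pi _ (fun y _ => MeasurableSet.of_discrete)]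
  rfl

theorem final_bd (hAlg : TaskAlg) (mu : ℝ≥0) (Z : Env) (n J : ℕ) (z' : List ℕ)
    (F : Finset (List ℕ)) (A : Finset Ix) :
    ∏ x ∈ vert (sh J Z) n, (if x ∈ BA n Z J z' F A then
          ENNReal.ofReal (Real.exp (-((mu * GG n (sh J Z) x : ℝ≥0) : ℝ))) else 1) ≤
      ENNReal.ofReal (Real.exp (mu * F.card)) *
        ENNReal.ofReal (Real.exp (-(Lam mu n (sh J Z) (EA A) {z'} : ℝ))) := by
  set V := vert (sh J Z) n with hV
  have hG1 : ∀ x, GG n (sh J Z) x ≤ 1 := by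
    intro x
    unfold GG
    have h1 : FF n (sh J Z) [] ≤ 1 := by unfold FF; exact tsub_le_self
    have h2 := ((hAlg.2.2.2 n (sh J Z)).2.2.2.2 x).1
    calc _ ≤ (1 : ℝ≥0) * 1 := mul_le_mul' h1 h2
      _ = 1 := one_mul 1
  have e1 : ∏ x ∈ V, (if x ∈ BA n Z J z' F A then
          ENNReal.ofReal (Real.exp (-((mu * GG n (sh J Z) x : ℝ≥0) : ℝ))) else 1) =
      ENNReal.ofReal (Real.exp (-∑ x ∈ V, (if x ∈ BA n Z J z' F A then
        ((mu * GG n (sh J Z) x : ℝ≥0) : ℝ) else 0))) := by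
    rw [← Finset.sum_neg_distrib, Real.exp_sum,
      ENNReal.ofReal_prod_of_nonneg (fun _ _ => (Real.exp_pos _).le)]
    refine Finset.prod_congr rfl fun x _ => ?_
    split_ifs
    · rfl
    · simp
  rw [e1, ← ENNReal.ofReal_mul (Real.exp_pos _).le, ← Real.exp_add]
  apply ENNReal.ofReal_le_ofReal
  apply Real.exp_le_exp.2
  have e2 : (Lam mu n (sh J Z) (EA A) {z'} : ℝ) = ∑ x ∈ V, (if Opn n (EA A) {z'} x then
      ((mu * GG n (sh J Z) x : ℝ≥0) : ℝ) else 0) := by
    unfold Lam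
    push_cast
    rw [Finset.mul_sum]
    refine Finset.sum_congr rfl fun x _ => ?_
    split_ifs <;> simp
  have e3 : ∑ x ∈ V, (if x ++ [J] ∈ F then (1 : ℝ) else 0) ≤ F.card := by
    rw [Finset.sum_ite, Finset.sum_const_zero, add_zero, Finset.sum_const, nsmul_eq_mul, mul_one]
    exact_mod_cast Finset.card_le_card_of_injOn (fun x => x ++ [J])
      (fun x hx => (Finset.mem_filter.1 (Finset.mem_coe.1 hx)).2)
      (fun x _ y _ h => List.append_cancel_right h)
  have e4 : (Lam mu n (sh J Z) (EA A) {z'} : ℝ) ≤ (∑ x ∈ V, (if x ∈ BA n Z J z' F A then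
        ((mu * GG n (sh J Z) x : ℝ≥0) : ℝ) else 0)) +
        mu * ∑ x ∈ V, (if x ++ [J] ∈ F then (1 : ℝ) else 0) := by
    rw [e2, Finset.mul_sum, ← Finset.sum_add_distrib]
    refine Finset.sum_le_sum fun x hx => ?_
    have hm : (0 : ℝ) ≤ mu := mu.2
    have hg0 : (0 : ℝ) ≤ ((mu * GG n (sh J Z) x : ℝ≥0) : ℝ) := NNReal.coe_nonneg _
    have hg1 : ((mu * GG n (sh J Z) x : ℝ≥0) : ℝ) ≤ mu := by
      have : mu * GG n (sh J Z) x ≤ mu := by
        calc mu * GG n (sh J Z) x ≤ mu * 1 := mul_le_mul' le_rfl (hG1 x)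
          _ = mu := mul_one _
      exact_mod_cast this
    by_cases ho : Opn n (EA A) {z'} x
    · by_cases hF : x ++ [J] ∈ F
      · have : x ∉ BA n Z J z' F A := fun h => (Finset.mem_filter.1 h).2.2 hF
        rw [if_pos ho, if_pos hF, if_neg this]
        linarith
      · have : x ∈ BA n Z J z' F A := Finset.mem_filter.2 ⟨hx, ho, hF⟩
        rw [if_pos ho, if_neg hF, if_pos this]
        linarith
    · rw [if_neg ho]
      split_ifs <;> linarith
  have e5 : (mu : ℝ) * ∑ x ∈ V, (if x ++ [J] ∈ F then (1 : ℝ) else 0) ≤ mu * F.card :=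
    mul_le_mul_of_nonneg_left e3 mu.2
  linarith

theorem main : TaskAlg → TaskOpn → TaskCEm → TaskCEp → TaskPoi → TaskLaw := by
  intro hAlg hOpn hCm hCp hPoi mu n Z J z' F hJ _
  have hcl := fun A S hS => cyl_law hAlg hCm hCp hPoi mu Z n J hJ z' F A S hS
  have hm : MeasurableSet (NoV Z n J z' F) := by
    rw [nov_eq hAlg hCm Z n J hJ z' F]
    exact Finset.measurableSet_biUnion _ fun A _ => (hcl A Set.univ MeasurableSet.univ).1
  set W : Finset Ix → ℝ≥0∞ := fun A => WA mu n (sh J Z) A *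
        ∏ x ∈ vert (sh J Z) n, (if x ∈ BA n Z J z' F A then
          ENNReal.ofReal (Real.exp (-((mu * GG n (sh J Z) x : ℝ≥0) : ℝ))) else 1) with hW
  have hS : ∀ S : Set (ℕ → ℝ), MeasurableSet S →
      FM mu ({ω | (ω []).2 0 ∈ S} ∩ NoV Z n J z' F) =
        (Measure.infinitePi fun _ : ℕ => unif) S * ∑ A ∈ (QQ n (sh J Z)).powerset, W A := by
    intro S hS
    have hm0 : Measurable (fun ω : Conf => ω []) := measurable_pi_apply _
    have hSm : MeasurableSet {ω : Conf | (ω []).2 0 ∈ S} := hm0 (root_law mu S hS).1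
    have e : {ω : Conf | (ω []).2 0 ∈ S} ∩ NoV Z n J z' F =
        ⋃ A ∈ (QQ n (sh J Z)).powerset, ({ω : Conf | (ω []).2 0 ∈ S} ∩ cyl n Z J z' F A) := by
      rw [nov_eq hAlg hCm Z n J hJ z' F, Set.inter_iUnion₂]
    rw [e, measure_biUnion_finset]
    · rw [Finset.mul_sum]
      exact Finset.sum_congr rfl fun A _ => (hcl A S hS).2
    · intro A hA A' hA' hne
      exact (cyl_disj hAlg hCm Z n J hJ z' F hA hA' hne).mono Set.inter_subset_right
        Set.inter_subset_right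
    · intro A _
      exact hSm.inter (hcl A S hS).1
  have hN : FM mu (NoV Z n J z' F) = ∑ A ∈ (QQ n (sh J Z)).powerset, W A := by
    have h := hS Set.univ MeasurableSet.univ
    rw [measure_univ, one_mul] at h
    rw [← h]
    congr 1
    ext ω
    simp
  refine ⟨hm, ?_, ?_⟩
  · rw [hN, PB_int hOpn, Finset.mul_sum]
    refine Finset.sum_le_sum fun A _ => ?_
    calc W A ≤ WA mu n (sh J Z) A * (ENNReal.ofReal (Real.exp (mu * F.card)) *
        ENNReal.ofReal (Real.exp (-(Lam mu n (sh J Z) (EA A) {z'} : ℝ)))) :=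
          mul_le_mul' le_rfl (final_bd hAlg mu Z n J z' F A)
      _ = _ := by ring
  · intro S hSm
    rw [hS S hSm, hN]

end Pool.Agent.W395.FR.Law
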